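import Pool.Agent.H540.TE.Lin

/-!
# Almost primes `q` with two prime factors and `2 q - 1` almost prime (Cunningham chains), `q - 1` a difference

A theorem of the type of Furstenberg and Sárközy, with a power saving, for the pairs `q`, `2 q - 1` and more general
patterns. Let `δ > 0`. There are `c > 0` and `R` such that for large `N` in every set `A` of integers in `[1, N]` with at
least `N ^ (1 - c)` elements there are at least `N ^ (2 - δ)` pairs of elements `b < a` such that `q = a - b + 1` has
at most two prime factors, both at least `N ^ (6 / 25)`, and `2 q - 1` has at most `R` prime factors, all at least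
`N ^ c`. More generally any multipliers `u_1, ..., u_J ≤ N ^ D` may be given: all the numbers `u_j (q - 1) + 1` have at
most `R` prime factors, all at least `N ^ c`, where `c` and `R` depend only on `J`, `D` and `δ`. With `u_j = 2 ^ j`
these are the Cunningham chains of the second kind `q, 2 q - 1, 4 q - 3, ...` of any length; the multipliers may
also be powers of `N`. Of the numbers `a - b + s` with fixed `s` only those with `s = 1` and `s = -1` can
always be almost primes: all elements of `A` may be multiples of a prime factor of `s`.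

For `A` the set of all integers up to `N` such results are classical (Brun, Halberstam and Richert). For the
differences `p - 1` and `p + 1`, `p` prime, such a power saving is a theorem of B. Green.

Method: the small primes (up to a small power of `N`) are sieved by a combination of additive characters with
majorising properties: with `t_p (m) = (K + 1) 1_{p | m} - x_p (m)`, where `x_p` is the indicator function of the
excluded classes and their negatives, `L = ∑_{d ≤ D} (1 - log d / log D) ∏_{p | d} t_p` and its analogues `L_p`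
give `f = L ^ 2 - ∑_p x_p L_p ^ 2 ≤ 0` outside of the sifted set, and the Fourier coefficients of `f`
which are not small are nonnegative, so that their contribution is bounded from below by the main term, however sparse
`A` is. The larger primes are treated by the linear sieve with the weights of Richert, with the level `N ^ (24 / 25)`:
the mean free parts of their indicator functions, multiplied by `L ^ 2` or `L_p ^ 2`, are dominated
by functions with nonnegative coefficients, whose pair sums are bounded by the large sieve; the loss by the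
sparsity of `A` is compensated by the gain from the size of these primes.
-/

set_option autoImplicit false

namespace Pool.Agent.Results.MP_0fefc4_nt.ChainsAtDifferences

open Finset Filter

/-- `n` is positive and has at most `r` prime factors, counted with multiplicity, all at least `y`. -/
def AlmostPrime (r : ℕ) (y : ℝ) (n : ℕ) : Prop :=
  0 < n ∧ n.primeFactorsList.length ≤ r ∧ ∀ p : ℕ, p.Prime → p ∣ n → y ≤ p

open Classical in
/-- The number of pairs of elements `b < a` of `A` for which with `q = a - b + 1` the number `q` has at most two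
prime factors, all at least `z`, and all the numbers `u_j (q - 1) + 1` have at most `R` prime factors, all at
least `y`, counted with multiplicity. -/
noncomputable def pairCount (R : ℕ) (y z : ℝ) {J : ℕ} (u : Fin J → ℕ) (A : Finset ℕ) : ℕ :=
  ((A ×ˢ A).filter (fun w : ℕ × ℕ => w.2 < w.1 ∧ AlmostPrime 2 z (w.1 - w.2 + 1) ∧
    ∀ j, AlmostPrime R y (u j * (w.1 - w.2) + 1))).card

theorem not_dvd_one (p : ℕ) (hp : p.Prime) : ¬ (p : ℤ) ∣ 1 := by
  intro h
  have h2 := Int.natCast_dvd.1 h
  exact hp.one_lt.ne' (Nat.dvd_one.1 h2)

/-- **Chains of almost primes at the differences of a sparse set.** Let `D ≥ 0`, `δ > 0` and `J` a natural number.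
There are `c > 0` and `R` such that for all sufficiently large `N` and all `u_1, ..., u_J ≤ N ^ D`, every set `A` of
integers in `[1, N]` with at least `N ^ (1 - c)` elements has at least `N ^ (2 - δ)` pairs of elements `b < a`
for which `q = a - b + 1` has at most two prime factors, all at least `N ^ (6 / 25)`, and the numbers
`u_j (q - 1) + 1` have at most `R` prime factors, all at least `N ^ c` (counted with multiplicity). -/
theorem result (J : ℕ) (D δ : ℝ) (hD : 0 ≤ D) (hδ : 0 < δ) :
    ∃ (c : ℝ) (R : ℕ), 0 < c ∧ ∀ᶠ N : ℕ in atTop, ∀ (u : Fin J → ℕ) (A : Finset ℕ),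
      (∀ j, (u j : ℝ) ≤ (N : ℝ) ^ D) → A ⊆ Icc 1 N → (N : ℝ) ^ (1 - c) ≤ (A.card : ℝ) →
      (N : ℝ) ^ (2 - δ) ≤ (pairCount R ((N : ℝ) ^ c) ((N : ℝ) ^ (6 / 25 : ℝ)) u A : ℝ) := by
  classical
  obtain ⟨c, R, N0, hc, hcδ, H⟩ := Pool.Agent.H540.PS.linT J 2 (3 / 2) D 1 δ (by norm_num) hD one_pos hδ
    (by norm_num)
  refine ⟨c, R, hc, ?_⟩
  filter_upwards [eventually_ge_atTop N0, eventually_ge_atTop 4] with N k1 k2 u A hu hA hAc
  have hN3 : (4 : ℝ) ≤ N := by exact_mod_cast k2
  have hNp : (0 : ℝ) < N := by linarith
  have hN1 : (1 : ℝ) ≤ N := by linarith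
  have hinj : Function.Injective (fun a : ℕ => (a : ℤ)) := Nat.cast_injective
  have hD1 : (1 : ℝ) ≤ (N : ℝ) ^ D := Real.one_le_rpow hN1 hD
  have hmain := H N k1 1 1 (fun j => (u j : ℤ)) (fun _ => 1) (A.image (fun a : ℕ => (a : ℤ))) one_ne_zero (by
      rw [Int.cast_one, abs_one, one_mul]
      have h2 : (2 : ℝ) ≤ (N : ℝ) ^ (1 / 2 : ℝ) := by
        rw [← Real.sqrt_eq_rpow]
        exact Real.le_sqrt_of_sq_le (by linarith)
      have h3 : (N : ℝ) ^ (3 / 2 : ℝ) = (N : ℝ) ^ (1 / 2 : ℝ) * N := by
        rw [show (3 / 2 : ℝ) = 1 / 2 + 1 by norm_num, Real.rpow_add hNp, Real.rpow_one]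
      rw [h3]
      have h4 := mul_le_mul_of_nonneg_right h2 hNp.le
      linarith) (by
      intro p hp h1
      exact absurd h1 (not_dvd_one p hp)) (by
      intro j
      refine ⟨?_, ?_⟩
      · rw [Int.cast_natCast, abs_of_nonneg (Nat.cast_nonneg _)]
        exact hu j
      · rw [Int.cast_one, abs_one]
        exact hD1) (by
      intro j p hp h1
      exact absurd h1 (not_dvd_one p hp)) (by
      intro a ha
      rw [mem_image] at ha
      obtain ⟨a', ha', rfl⟩ := ha
      have := mem_Icc.1 (hA ha')
      omega) (by
      rw [card_image_of_injective _ hinj]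
      exact hAc)
  refine hmain.trans (Nat.cast_le.2 ?_)
  unfold pairCount
  apply card_le_card_of_injOn (fun z : ℤ × ℤ => (z.1.toNat, z.2.toNat))
  · rintro ⟨x, y⟩ hz
    rw [mem_coe, mem_filter, mem_product, mem_image, mem_image] at hz
    obtain ⟨⟨⟨a, ha, hxa⟩, ⟨b, hb, hyb⟩⟩, hlt, hP, hG⟩ := hz
    simp only at hxa hyb hlt hP hG
    subst hxa
    subst hyb
    have hlt' : b < a := by exact_mod_cast hlt
    rw [mem_coe, mem_filter, mem_product]
    simp only [Int.toNat_natCast]
    rw [← Nat.cast_sub hlt'.le] at hP hG
    refine ⟨⟨ha, hb⟩, hlt', ?_, ?_⟩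
    · have h4 : (1 * ((a - b : ℕ) : ℤ) + 1).natAbs = a - b + 1 := by
        have : (1 * ((a - b : ℕ) : ℤ) + 1) = ((a - b + 1 : ℕ) : ℤ) := by
          push_cast
          ring
        rw [this, Int.natAbs_natCast]
      rw [h4] at hP
      exact hP
    · intro j
      have h5 := hG j
      have h4 : ((u j : ℤ) * ((a - b : ℕ) : ℤ) + 1).natAbs = u j * (a - b) + 1 := by
        have : ((u j : ℤ) * ((a - b : ℕ) : ℤ) + 1) = ((u j * (a - b) + 1 : ℕ) : ℤ) := by
          push_cast
          rfl
        rw [this, Int.natAbs_natCast]
      rw [h4] at h5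
      exact h5
  · rintro ⟨x, y⟩ hz ⟨x', y'⟩ hz' heq
    rw [mem_coe, mem_filter, mem_product, mem_image, mem_image] at hz hz'
    obtain ⟨⟨⟨a, ha, hxa⟩, ⟨b, hb, hyb⟩⟩, _⟩ := hz
    obtain ⟨⟨⟨a', ha', hxa'⟩, ⟨b', hb', hyb'⟩⟩, _⟩ := hz'
    simp only [Prod.mk.injEq] at heq hxa hyb hxa' hyb' ⊢
    omega

end Pool.Agent.Results.MP_0fefc4_nt.ChainsAtDifferences
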