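import Mathlib
import Pool.Agent.H534.NW.IterW

/-!
# Primes `p` with almost primes in their Cunningham sequences `p, 2 p - 1, 4 p - 3, ...` at arbitrary times, at
# all the places of every narrow shape

Let `T n = 2 n - 1`.  For every shape `b_1, ..., b_k` (no exceptions) and a positive proportion of the multiples
`D = W d`, `d ≤ X`, of a small modulus `W` which depends on the shape, for all `X` between a power of `log x` and
`(x / (W b_j)) ^ (1 / 3)`, there are many `p` for which all the `k + 1` numbers `p' = p, p + D b_1, ..., p + D b_k`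
are primes and all the iterates `T^[t_i] p'` are almost primes, at arbitrary times with `2 ^ t_i ≤ x ^ E`, so they
may grow like a multiple of `log x` (the constants do not depend on the times; there is never a local obstruction).
This is true inside every subset of these primes of positive relative density; it is true inside every dense set of
integers with rough values, hence also for the primes `p` with `2 p - 1` prime if there are as many of them as
expected; and for whole strings of consecutive primes in windows which are longer than any constant.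

The modulus `W = WS σ b x` is the product of the primes `p ≤ (log x) ^ (1 - σ)` such that `p ≤ log log x` or two
of the numbers `0, b_1, ..., b_k` are congruent modulo `p`; it is always `x ^ o(1)`, and for fixed `b` a bounded
power of `log x`.

Proof.  The relative multidimensional Szemerédi theorem for shapes of polynomial size and narrow differences
(`Pool.Agent.H534.NW`), uniform in systems of linear forms with coefficients up to a power of `x`, and the lower
bounds for primes with almost prime companions of the library, uniform in the linear forms (a sieve and a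
Maynard-Tao theorem).
-/

set_option autoImplicit false

open Finset Filter

namespace Pool.Agent.Results.MP_0fefc4_nt.EveryShapeOfChains

open Pool.Agent.H534.NW (WS Shapes ShapesV)

/-- the step of the Cunningham sequences of the second kind -/
def T (n : ℕ) : ℕ := 2 * n - 1

open Classical in
/-- the number of the residue classes of `n` modulo `q` for which `q` divides `n` or one of the `T^[t i] n` -/
noncomputable def w {l : ℕ} (t : Fin l → ℕ) (q : ℕ) : ℕ := ((range q).filter (fun n => q ∣ n ∨ ∃ i, q ∣ T^[t i] n)).card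

/-- the product of the `1 - w(q) / q` over the primes `q ≤ z` -/
noncomputable def V {l : ℕ} (t : Fin l → ℕ) (z : ℕ) : ℝ :=
  ∏ q ∈ (Icc 1 z).filter Nat.Prime, (1 - (w t q : ℝ) / q)

/-- All prime factors of `n` are larger than `y`. -/
def Rough (y : ℝ) (n : ℕ) : Prop := ∀ q : ℕ, q.Prime → q ∣ n → y < (q : ℝ)

open Classical in
/-- the primes `p` of `(x, 2 x]` for which all `T^[t_i] p` have at most `R` prime factors, all larger than `y` -/
noncomputable def AlmostPrimes {l : ℕ} (t : Fin l → ℕ) (R : ℕ) (y : ℝ) (x : ℕ) : Finset ℕ :=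
  (Ioc x (2 * x)).filter (fun p => p.Prime ∧ ∀ i, (T^[t i] p).primeFactorsList.length ≤ R ∧ Rough y (T^[t i] p))

open Pool.Agent.H534.RT (ia ib be be_succ be_le LAdm LV LP)

lemma T_int (t n : ℕ) (hn : 1 ≤ n) : 1 ≤ T^[t] n ∧ ((T^[t] n : ℕ) : ℤ) = ((2 ^ t : ℕ) : ℤ) * n + (-1) * (be 2 t : ℕ) := by
  induction t with
  | zero => simp [be, hn]
  | succ t ih =>
    obtain ⟨h1, h2⟩ := ih
    rw [Function.iterate_succ_apply']
    unfold T at h1 h2 ⊢
    refine ⟨by omega, ?_⟩
    rw [Nat.cast_sub (by omega)]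
    push_cast at h2 ⊢
    rw [h2, be_succ]
    push_cast
    ring

lemma T_dvd {l : ℕ} (t : Fin l → ℕ) (n : ℕ) (hn : 1 ≤ n) (q : ℕ) (i : Fin l) :
    (q : ℤ) ∣ (ia 2 t i : ℤ) * n + ib 2 (-1) t i ↔ q ∣ T^[t i] n := by
  unfold ia ib
  rw [← (T_int (t i) n hn).2]
  exact Int.natCast_dvd_natCast

lemma T_pos (t n : ℕ) (hn : 1 ≤ n) : 0 < T^[t] n := (T_int t n hn).1

lemma T_le (t n : ℕ) (hn : 1 ≤ n) : T^[t] n ≤ 2 ^ t * n := by
  have h := (T_int t n hn).2
  have h1 : ((T^[t] n : ℕ) : ℤ) ≤ ((2 ^ t * n : ℕ) : ℤ) := by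
    rw [h]
    push_cast
    have : (0 : ℤ) ≤ (be 2 t : ℤ) := Nat.cast_nonneg _
    linarith
  exact_mod_cast h1

lemma ladm {l : ℕ} (t : Fin l → ℕ) : LAdm (ia 2 t) (ib 2 (-1) t) := by
  intro p hp
  refine ⟨1, fun h => hp.one_lt.ne' (Nat.dvd_one.1 h), fun j h => ?_⟩
  rw [T_dvd t 1 le_rfl] at h
  have h1 : ∀ s, T^[s] 1 = 1 := by
    intro s
    induction s with
    | zero => rfl
    | succ s ih => rw [Function.iterate_succ_apply', ih]; rfl
  rw [h1] at h
  exact hp.one_lt.ne' (Nat.dvd_one.1 h)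

lemma V_eq {l : ℕ} (t : Fin l → ℕ) (z : ℕ) : LV (ia 2 t) (ib 2 (-1) t) z = V t z := by
  classical
  unfold LV V w
  apply prod_congr rfl
  intro p _
  have e : ((range p).filter (fun n : ℕ => p ∣ n ∨ ∃ j, (p : ℤ) ∣ (ia 2 t j : ℤ) * n + ib 2 (-1) t j)).card =
      ((range p).filter (fun n => p ∣ n ∨ ∃ i, p ∣ T^[t i] n)).card := by
    apply congrArg
    ext n
    simp only [mem_filter]
    constructor
    · rintro ⟨h1, h2⟩
      refine ⟨h1, ?_⟩
      rcases h2 with h2 | ⟨j, h2⟩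
      · exact Or.inl h2
      · rcases Nat.eq_zero_or_pos n with h3 | h3
        · left; rw [h3]; exact dvd_zero _
        · exact Or.inr ⟨j, (T_dvd t n h3 p j).1 h2⟩
    · rintro ⟨h1, h2⟩
      refine ⟨h1, ?_⟩
      rcases h2 with h2 | ⟨j, h2⟩
      · exact Or.inl h2
      · rcases Nat.eq_zero_or_pos n with h3 | h3
        · left; rw [h3]; exact dvd_zero _
        · exact Or.inr ⟨j, (T_dvd t n h3 p j).2 h2⟩
  rw [e]

/-- **All times, every narrow shape.** Let `k ≥ 1`, `κ > 0` and `T n = 2 n - 1`.  The constants `c > 0`,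
`0 < σ ≤ 1 / 2` and `L` do not depend on the times `t_1, ..., t_l`, where `2 ^ t_i ≤ H ^ E` (or `x ^ E`), nor on
the sets.  `ShapesV k v c σ L H A` means: for all `X ≥ (log H) ^ L` and ALL distinct `b_1, ..., b_k ≥ 1` with
`b_j W X ^ 3 ≤ H`, where `W = WS σ b H`, at least `c X` of the `d ≤ X` are such that with `D = W d` at least
`c H v ^ (k + 1)` elements `n` of `A` have `n + D b_1, ..., n + D b_k` in `A`.  `Shapes k s c σ L H A` is the same
with `H / (log H) ^ (s (k + 1))` in place of `H v ^ (k + 1)`.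
(1) For every interval `(Y, Y + H]`, `Y ≤ H ^ E`, every set `A` of at least `κ H V(H)` integers `n` of it such
that `n` and the `T^[t_i] n` have no prime factor `≤ H ^ η` has the property `ShapesV k V(H) c σ L H`.
(2) For large `r` and large `x` every subset `A` of relative density `≥ κ` of the set of the primes `p` of
`(x, 2 x]` for which all `T^[t_i] p` have at most `(E + 2) r` prime factors, all larger than `x ^ (1 / r)`, has the
property `ShapesV k V(x) c σ L x`.
(3) For every `m` there are `η > 0`, `B` and `K` such that for large `x` and all distinct times `t_i ≥ 1` with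
`2 ^ t_i ≤ x ^ E` there are a set `P` of at least `m` of the integers `1, ..., K` and a set `S` of integers `n` of
`(x / 2, 3 x / 2]` such that the primes in `(n, n + log x / (log log x) ^ 2]` are the integers `p = n + u`,
`u ∈ P`, and for all of them all prime factors of all `T^[t_i] p` are larger than `x ^ η`, for all `n ∈ S`, and
every subset of `S` of relative density `≥ κ` has the property `Shapes k B c σ L x`. -/
theorem result (l : ℕ) :
    (∀ (k E : ℕ) (η κ : ℝ), 1 ≤ k → 0 < η → 0 < κ → ∃ c σ : ℝ, 0 < c ∧ 0 < σ ∧ σ ≤ 1 / 2 ∧ ∃ L H₀ : ℕ,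
      ∀ (H Y : ℕ) (t : Fin l → ℕ) (A : Finset ℕ), H₀ ≤ H → (∀ i, 2 ^ t i ≤ H ^ E) → Y ≤ H ^ E →
      A ⊆ Ioc Y (Y + H) →
      (∀ n ∈ A, Rough ((H : ℝ) ^ η) n ∧ ∀ i, Rough ((H : ℝ) ^ η) (T^[t i] n)) → κ * (H * V t H) ≤ A.card →
      ShapesV k (V t H) c σ L H A) ∧
    (∀ E : ℕ, ∃ r₀ : ℕ, 2 ≤ r₀ ∧ ∀ r : ℕ, r₀ ≤ r → ∀ (k : ℕ) (κ : ℝ), 1 ≤ k → 0 < κ →
      ∃ c σ : ℝ, 0 < c ∧ 0 < σ ∧ σ ≤ 1 / 2 ∧ ∃ L : ℕ, ∀ᶠ x : ℕ in atTop,
      ∀ t : Fin l → ℕ, (∀ i, 2 ^ t i ≤ x ^ E) →
      ∀ A ⊆ AlmostPrimes t ((E + 2) * r) ((x : ℝ) ^ (1 / (r : ℝ))) x,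
      κ * ((AlmostPrimes t ((E + 2) * r) ((x : ℝ) ^ (1 / (r : ℝ))) x).card : ℝ) ≤ A.card →
      ShapesV k (V t x) c σ L x A) ∧
    (∀ m : ℕ, ∃ η : ℝ, 0 < η ∧ ∃ B K : ℕ, ∀ (k E : ℕ) (κ : ℝ), 1 ≤ k → 0 < κ →
      ∃ c σ : ℝ, 0 < c ∧ 0 < σ ∧ σ ≤ 1 / 2 ∧ ∃ L x₀ : ℕ, ∀ x : ℕ, x₀ ≤ x →
      ∀ t : Fin l → ℕ, Function.Injective t → (∀ i, 1 ≤ t i ∧ 2 ^ t i ≤ x ^ E) →
      ∃ P S : Finset ℕ, P ⊆ Icc 1 K ∧ m ≤ P.card ∧ S ⊆ Ioc (x / 2) (x / 2 + x) ∧
      (∀ n ∈ S, (∀ u : ℕ, 1 ≤ u → (u : ℝ) ≤ Real.log x / Real.log (Real.log x) ^ 2 → ((n + u).Prime ↔ u ∈ P)) ∧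
        ∀ u ∈ P, (n + u).Prime ∧ ∀ i, Rough ((x : ℝ) ^ η) (T^[t i] (n + u))) ∧
      ∀ A ⊆ S, κ * (S.card : ℝ) ≤ A.card → Shapes k B c σ L x A) := by
  classical
  refine ⟨fun k E η κ hk hη hκ => ?_, fun E => ?_, fun m => ?_⟩
  · obtain ⟨c, σm, hc, hσm, hσm2, hm⟩ := Pool.Agent.H534.NW.itAW l E k η κ hk hη hκ 2 le_rfl (-1)
    obtain ⟨L, H₀, hm⟩ := hm σm hσm le_rfl
    refine ⟨c, σm, hc, hσm, hσm2, L, H₀, fun H Y t A hH ht hY hA hAr hAc => ?_⟩
    have h0 := hm H Y t A hH (ladm t) ht hY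
      (fun n hn j => by
        have hn1 : 1 ≤ n := by
          have := (mem_Ioc.1 hn).1
          omega
        unfold ia ib
        rw [← (T_int (t j) n hn1).2]
        have := T_pos (t j) n hn1
        omega) hA
      (fun n hn p hp hpH => by
        have hn1 : 1 ≤ n := by
          have := (mem_Ioc.1 (hA hn)).1
          omega
        obtain ⟨h1, h2⟩ := hAr n hn
        refine ⟨fun hd => ?_, fun j hd => ?_⟩
        · have := h1 p hp hd
          linarith
        · have := h2 j p hp ((T_dvd t n hn1 p j).1 hd)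
          linarith)
      (by rw [V_eq]; exact hAc)
    rw [V_eq] at h0
    exact h0
  · obtain ⟨r₀, hr₀, hm⟩ := Pool.Agent.H534.NW.itBW l E 2 le_rfl (-1)
    refine ⟨r₀, hr₀, fun r hr k κ hk hκ => ?_⟩
    obtain ⟨c, σm, hc, hσm, hσm2, h1⟩ := hm r hr k κ hk hκ
    obtain ⟨L, h1⟩ := h1 σm hσm le_rfl
    refine ⟨c, σm, hc, hσm, hσm2, L, ?_⟩
    filter_upwards [h1, eventually_ge_atTop 2, Pool.Agent.H534.RT.len_ev (E + 2) r (by omega) (by omega)]
      with x h2 hx2 h3 t ht A hA hAc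
    have e : LP (ia 2 t) (ib 2 (-1) t) x r = AlmostPrimes t ((E + 2) * r) ((x : ℝ) ^ (1 / (r : ℝ))) x := by
      ext y
      unfold LP AlmostPrimes
      rw [mem_filter, mem_filter, mem_Ioc]
      constructor
      · rintro ⟨⟨hy1, hy2⟩, hy3, hy4⟩
        have hyone : 1 ≤ y := by omega
        have hrough : ∀ i, ∀ q : ℕ, q.Prime → q ∣ T^[t i] y → (x : ℝ) ^ (1 / (r : ℝ)) < q :=
          fun i q hq hd => hy4 i q hq ((T_dvd t y hyone q i).2 hd)
        refine ⟨⟨hy1, hy2⟩, hy3, fun i => ⟨h3 _ (T_pos _ _ hyone) ?_ (hrough i), hrough i⟩⟩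
        refine (T_le (t i) y hyone).trans ?_
        calc 2 ^ t i * y ≤ x ^ E * (x * x) := Nat.mul_le_mul (ht i) (by nlinarith)
          _ = x ^ (E + 2) := by ring
      · rintro ⟨⟨hy1, hy2⟩, hy3, hy4⟩
        exact ⟨⟨hy1, hy2⟩, hy3, fun i q hq hd => (hy4 i).2 q hq ((T_dvd t y (by omega) q i).1 hd)⟩
    rw [← e] at hA hAc
    have h0 := h2 t (ladm t) ht A hA hAc
    rw [V_eq] at h0
    exact h0
  · obtain ⟨η, hη, B, K, hm⟩ := Pool.Agent.H534.NW.itCW m l
    refine ⟨η, hη, B, K, fun k E κ hk hκ => ?_⟩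
    obtain ⟨c, σm, hc, hσm, hσm2, h1⟩ := hm 2 le_rfl (-1) k E κ hk hκ
    obtain ⟨L, x₀, h1⟩ := h1 σm hσm le_rfl
    refine ⟨c, σm, hc, hσm, hσm2, L, x₀, fun x hx t hinj ht => ?_⟩
    obtain ⟨P, S, hP1, hP2, hS1, hS2, h2⟩ := h1 x hx t (ladm t) hinj (fun j => (ht j).1) (fun j => (ht j).2)
    refine ⟨P, S, hP1, hP2, hS1, fun n hn => ?_, h2⟩
    obtain ⟨h5, h6⟩ := hS2 n hn
    refine ⟨h5, fun u hu => ⟨(h6 u hu).1, fun j q hq hd => ?_⟩⟩
    exact (h6 u hu).2 j q hq ((T_dvd t _ (h6 u hu).1.one_le q j).2 hd)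

end Pool.Agent.Results.MP_0fefc4_nt.EveryShapeOfChains
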